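import Pool.Agent.Lib_helper54.Concrete

set_option autoImplicit false

/-!
There is a von Neumann algebra `A` for which the `A`-bimodule `(A × A)^h_*` of separately
weak*-continuous Haagerup-bounded bilinear forms is not injective.

The algebra is `A = B(ℓ²(ℕ)) ⊕ R(Γ)` with `R(Γ)` a group von Neumann algebra of `Γ = SL(2, ℤ)`,
realised on `ℓ²(Γ ⊕ ℕ)` as the commutant of the left translations of `Γ` and of the projection
onto `ℓ²(ℕ)`.

Sketch. Let `Y` be the bimodule of Hilbert-Schmidt operators, `Z` the bimodule of bounded linear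
maps `G : A → Y` with `(c · G · d)(a) = G(ac) · d`, `σ(w)(a) = a · w` and
`φ(w)(x ⊗ y) = ⟪η, y w x ξ⟫` with `ξ = δ₀ ∈ ℓ²(ℕ)` and `η = δ₁ ∈ ℓ²(Γ)`. The form `φ(w)` is bounded
for the Haagerup norm because `η` is a trace vector. Suppose `ψ σ = φ`. Write `Γ = S₁ ⊔ S₂` with
elements `g_k` such that the translates `g_k S₁` (`k ∈ ℕ`) are pairwise disjoint, and similarly for
`S₂`. The maps `G_n(a) = ∑_{k < n} (M_S U_{g_k}⁻¹ a η) ⊗ δ_k` have norm at most `1` by disjointness,
while `y_k · G_n · x_k = K_S` does not depend on `k < n`, where `x_k` is the matrix unit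
`δ₀ ↦ δ_k` and `y_k` is a right translation. Hence
`n |ψ(K_S)(1 ⊗ 1)| = |ψ(G_n)(∑ x_k ⊗ y_k)| ≤ ‖ψ‖ √n`, so `ψ(K_S)(1 ⊗ 1) = 0` for both halves,
while `K_{S₁} + K_{S₂} = σ(η ⊗ ξ)` gives the value `φ(η ⊗ ξ)(1 ⊗ 1) = 1`.
-/

namespace Pool.Agent.Results.MP_86326a_an.NotInjective

open Pool.Agent.Lib_helper54

/-- There are a Hilbert space `H` and a von Neumann algebra `A` on `H` such that the
`A`-bimodule `(A × A)^h_*` is not injective. -/
theorem result : ∃ (H : Type) (_ : NormedAddCommGroup H) (_ : InnerProductSpace ℂ H)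
    (_ : CompleteSpace H) (A : VonNeumannAlgebra H),
    ¬ InjectiveBimodule (Elt A) (NormalHaagerupDual (Elt A)) :=
  ⟨L2 (Matrix.SpecialLinearGroup (Fin 2) ℤ ⊕ ℕ), inferInstance, inferInstance, inferInstance,
    exVN (Matrix.SpecialLinearGroup (Fin 2) ℤ),
    not_injective _ (obstruction _ half half_compl trans trans_disj)⟩

end Pool.Agent.Results.MP_86326a_an.NotInjective
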